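import Pool.Agent.N905.CY.Forms

set_option autoImplicit false

/-!
The number of cycles of the 3x+1 map on the integers, counted by their number of elements and by their
linear form, with the explicit exponent `0.94`, below the entropy exponent `0.94995...`.
-/

namespace Pool.Agent.Results.MP_d02c56_nt.FewCyclesExplicit

/-- The 3x+1 map on the integers (the shortcut form of the Collatz map). -/
def T (x : ℤ) : ℤ := if x % 2 = 0 then x / 2 else (3 * x + 1) / 2

/-- `Z` is a cycle of `T`. -/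
def IsCycle (Z : Finset ℤ) : Prop :=
  ∃ (x : ℤ) (p : ℕ), 1 ≤ p ∧ T^[p] x = x ∧ Z = (Finset.range p).image fun i => T^[i] x

/-- The number of odd elements of `Z`. -/
def odds (Z : Finset ℤ) : ℕ := (Z.filter fun x => x % 2 = 1).card

/-- `S` is finite and has at most `B` elements. -/
def AtMost (S : Set (Finset ℤ)) (B : ℝ) : Prop := S.Finite ∧ (S.ncard : ℝ) ≤ B

/-- There is `C` such that (a cycle has `p` elements, `o` of them odd):
(1) for every `lam > 0` at most `C lam ^ (-0.94)` cycles satisfy `|p log 2 - o log 3| ≥ lam`;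
(2) for infinitely many `P` there are at most `C P ^ 0.94` cycles with at most `P` elements, and for
every `a`, apart from at most `C P ^ 0.94` exceptions, all cycles with between `a` and `a + P` elements
have the same number of elements and the same number of odd elements;
(3) for every `P ≥ 1` there are coprime `1 ≤ q ≤ P` and `r` such that, apart from at most `C P ^ 0.94`
exceptions, all cycles with at most `P` elements satisfy `o / p = r / q`; and for every `a` there is
`c` such that, apart from at most `C P ^ 0.94` exceptions, all cycles with between `a` and `a + P`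
elements satisfy `q o - r p = c`. -/
theorem result : ∃ C : ℝ,
    (∀ lam : ℝ, 0 < lam →
      AtMost {Z | IsCycle Z ∧ lam ≤ |(Z.card : ℝ) * Real.log 2 - odds Z * Real.log 3|}
        (C * lam ^ (-(94 / 100) : ℝ))) ∧
    (∃ᶠ P : ℕ in Filter.atTop,
      AtMost {Z | IsCycle Z ∧ Z.card ≤ P} (C * (P : ℝ) ^ (94 / 100 : ℝ)) ∧
      ∀ a : ℕ, ∃ p o : ℕ, AtMost {Z | IsCycle Z ∧ a ≤ Z.card ∧ Z.card ≤ a + P ∧
        ¬ (Z.card = p ∧ odds Z = o)} (C * (P : ℝ) ^ (94 / 100 : ℝ))) ∧
    (∀ P : ℕ, 1 ≤ P → ∃ (q : ℕ) (r : ℤ), 1 ≤ q ∧ q ≤ P ∧ IsCoprime (q : ℤ) r ∧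
      AtMost {Z | IsCycle Z ∧ Z.card ≤ P ∧ (q : ℤ) * odds Z ≠ r * Z.card}
        (C * (P : ℝ) ^ (94 / 100 : ℝ)) ∧
      ∀ a : ℕ, ∃ c : ℤ, AtMost {Z | IsCycle Z ∧ a ≤ Z.card ∧ Z.card ≤ a + P ∧
        (q : ℤ) * odds Z - r * Z.card ≠ c} (C * (P : ℝ) ^ (94 / 100 : ℝ))) :=
  Pool.Agent.N905.CY.main (94 / 100) Pool.Agent.N905.EX.eta0_lt (by norm_num) (by norm_num)

end Pool.Agent.Results.MP_d02c56_nt.FewCyclesExplicit
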