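import Pool.Agent.N685.FD.P6
import Pool.Agent.N685.FD.Bivl
import Pool.Agent.N685.FD.Bivu
import Pool.Agent.N685.FD.Strb
import Pool.Agent.N685.FD.Chn

/-!
How the integers enter a cycle of the `3x+1` map (or any finite set, for the maps `3x+d`): exact
exponents for every number of steps and every number of odd steps; and the trajectories which enter it
fast are straight.
-/

set_option autoImplicit false

namespace Pool.Agent.Results.MP_d02c56_nt.PathsIntoCycles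

/-- The map `3x+d`; for `d = 1` it is the shortcut form of the Collatz map: one step from even numbers,
two steps from odd numbers. -/
def T (d : ℤ) (x : ℤ) : ℤ := if x % 2 = 0 then x / 2 else (3 * x + d) / 2

/-- The trajectory of `n` under `T d` is in `F` at the time `k`, and not earlier. -/
def HitsAt (d : ℤ) (F : Set ℤ) (n : ℤ) (k : ℕ) : Prop :=
  (∀ j < k, (T d)^[j] n ∉ F) ∧ (T d)^[k] n ∈ F

/-- The number of the odd terms among the first `k` terms `n, T(n), …, T^(k-1)(n)`. -/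
def oddSteps (d : ℤ) (k : ℕ) (n : ℤ) : ℕ :=
  ((Finset.range k).filter fun i => (T d)^[i] n % 2 = 1).card

/-- The `n ≠ 0` which hit `F` for the first time after exactly `k` steps, exactly `o` of them odd. -/
def Level (d : ℤ) (F : Set ℤ) (k o : ℕ) : Set ℤ :=
  {n : ℤ | n ≠ 0 ∧ HitsAt d F n k ∧ oddSteps d k n = o}

/-- The `n`, `1 ≤ |n| ≤ x`, which hit `F` after at most `α log |n|` steps. -/
def Fast (d : ℤ) (F : Set ℤ) (α x : ℝ) : Set ℤ :=
  {n : ℤ | n ≠ 0 ∧ |(n : ℝ)| ≤ x ∧ ∃ k : ℕ, HitsAt d F n k ∧ (k : ℝ) ≤ α * Real.log |(n : ℝ)|}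

/-- Those whose trajectory is not a straight line of slope `-1/α` up to the time `k` of the hit:
`|log |T^j(n)| - (log |n| - j / α)| > ε log x` for some `j ≤ k`. -/
def Bent (d : ℤ) (F : Set ℤ) (α ε x : ℝ) : Set ℤ :=
  {n : ℤ | n ≠ 0 ∧ |(n : ℝ)| ≤ x ∧ ∃ k : ℕ, HitsAt d F n k ∧ (k : ℝ) ≤ α * Real.log |(n : ℝ)| ∧
    ∃ j ≤ k, ε * Real.log x <
      |Real.log |(((T d)^[j] n : ℤ) : ℝ)| - (Real.log |(n : ℝ)| - j / α)|}

open Pool.Agent.N685.FD Pool.Agent.N685.FD.D3 Pool.Agent.N685.FD.P5 Pool.Agent.N685.FD.P6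

theorem Fp_eq (r : ℝ) : Real.binEntropy r - r * Real.log 3 = Fp 3 r := by
  unfold Fp
  norm_num

/-- Let `d` be odd and prime to `3`, and let `F` be a finite set of integers which contains some
`m ≠ 0` prime to `3` (for `d = 1`: for example a cycle other than `{0}`). `Real.binEntropy` is the
natural entropy `-ρ log ρ - (1 - ρ) log (1 - ρ)`.

(1) Let `η > 0` and let `ρ < log 2 / log 3` have `H(ρ) > ρ log 3`. For every `ε > 0`, for all large `k`
and ALL `o` with `η k ≤ o ≤ ρ k`, at least `exp ((H(o/k) - (o/k) log 3 - ε) k)` integers `n ≠ 0` hit `F`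
for the first time after exactly `k` steps, exactly `o` of them odd.

(2) Let `η > 0`. For every `ε > 0`, for all large `k` and ALL `o` with `η k ≤ o ≤ k / 2` there are at
most `exp ((H(o/k) - (o/k) log 3 + ε) k)` such integers.

(3) Let `1 / log 2 < α < 2 / log (4/3)` and `ε > 0`. There is `κ > 0` such that for all large `x`, among
the `1 ≤ |n| ≤ x` which hit `F` after at most `α log |n|` steps the proportion of those whose trajectory
is not straight up to `ε log x` is at most `x^(-κ)`. -/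
theorem result : ∀ d : ℤ, ¬ (2 : ℤ) ∣ d → ¬ (3 : ℤ) ∣ d → ∀ F : Set ℤ, F.Finite →
    (∃ m ∈ F, m ≠ 0 ∧ ¬ (3 : ℤ) ∣ m) →
    (∀ η ρ ε : ℝ, 0 < η → ρ < Real.log 2 / Real.log 3 → 0 < Real.binEntropy ρ - ρ * Real.log 3 →
      0 < ε → ∃ k₀ : ℕ, ∀ k : ℕ, k₀ ≤ k → ∀ o : ℕ, η * k ≤ o → (o : ℝ) ≤ ρ * k →
        (Level d F k o).Finite ∧
        Real.exp ((Real.binEntropy ((o : ℝ) / k) - (o : ℝ) / k * Real.log 3 - ε) * k) ≤
          (Set.ncard (Level d F k o) : ℝ)) ∧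
    (∀ η ε : ℝ, 0 < η → 0 < ε → ∃ k₀ : ℕ, ∀ k : ℕ, k₀ ≤ k → ∀ o : ℕ, η * k ≤ o → 2 * o ≤ k →
        (Level d F k o).Finite ∧
        (Set.ncard (Level d F k o) : ℝ) ≤
          Real.exp ((Real.binEntropy ((o : ℝ) / k) - (o : ℝ) / k * Real.log 3 + ε) * k)) ∧
    (∀ α ε : ℝ, 1 / Real.log 2 < α → α < 2 / Real.log (4 / 3) → 0 < ε →
      ∃ κ : ℝ, 0 < κ ∧ ∃ X₀ : ℝ, ∀ x : ℝ, X₀ ≤ x →
        (Fast d F α x).Finite ∧
        (Set.ncard (Bent d F α ε x) : ℝ) ≤ x ^ (-κ) * (Set.ncard (Fast d F α x) : ℝ)) := by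
  intro d hd2 hd3 F hF hm
  have hd : Adm 3 d := ⟨Or.inl rfl, hd2, hd3⟩
  have hG : Good F := ⟨hF, hm⟩
  have hl3 : 0 < Real.log 3 := Real.log_pos (by norm_num)
  refine ⟨fun η ρ ε hη hρ hρ2 hε => ?_, fun η ε hη hε => ?_, fun α ε h1 h2 hε => ?_⟩
  · have h23 : Real.log 2 < Real.log 3 := Real.log_lt_log (by norm_num) (by norm_num)
    obtain ⟨k₀, h⟩ := biv_low t_BIVL hd hG hη
      (hρ.trans ((div_lt_one hl3).2 h23)) (by rwa [Fp_eq] at hρ2) ((lt_div_iff₀ hl3).1 hρ) hε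
    exact ⟨k₀, fun k hk o ho1 ho2 => ⟨bs_fin hd hF k o, by
      rw [Fp_eq]
      exact h k hk o ho1 ho2⟩⟩
  · obtain ⟨k₀, h⟩ := biv_up t_BIVU hd hF hη hε
    exact ⟨k₀, fun k hk o ho1 ho2 => ⟨bs_fin hd hF k o, by
      rw [Fp_eq]
      exact h k hk o ho1 ho2⟩⟩
  · obtain ⟨κ, hκ, X₀, h⟩ := straight_hit t_STRB hd hG h1 h2 hε
    exact ⟨κ, hκ, X₀, fun x hx => ⟨Ct_fin d F α x, h x hx⟩⟩

end Pool.Agent.Results.MP_d02c56_nt.PathsIntoCycles
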