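import Mathlib
import Pool.Agent.N903.Traj3

set_option autoImplicit false

/-!
# Sums of dilates of the trajectories of the 3x+1 map

There is a constant `N0` with the following property. Let `x` be an integer, `n ≥ N0` and
`n ≥ 2000 log (|x| + 1)`, and let the first `n` terms of the trajectory of `x` be distinct. Then for all odd integers
`u`, `v` the set of the numbers `u y + v z`, for `y`, `z` among the first `n` terms, has at least `n ^ 1.02`
elements.

Method. The residue classes modulo `2 ^ k` of the terms form a binary tree, in which the next digit of `y` is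
determined by the parity of `T^k y`. At least `0.62` of the terms of a trajectory with distinct terms are odd (for
the map `T`), so the conditional entropy of each of the first `n / 400` digits is at most the entropy of `3 / 8`.
The next digit of a sum is, for given previous digits of the summands, a sum of two independent digits, and by the
inequality of Wyner and Ziv (Mrs. Gerber's lemma) its entropy is larger by a factor. There remains the case
that many terms agree modulo `2 ^ (n / 400)`: then the word of parities has a long repetition with a short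
period `d`, so that the powers of two dividing the differences of the terms `T^(i + s d) x` decrease by `d` exactly
at each step, and the sums of dilates of these terms are almost all different.
-/

namespace Pool.Agent.Results.MP_d02c56_nt.SumsetsOfTrajectories

open Real

open Pool.Agent.N903.SS (T tr on ZZ dil)

/-- The map of Collatz on the integers. -/
def C (x : ℤ) : ℤ := if x % 2 = 0 then x / 2 else 3 * x + 1

/-- The set of the first `n` terms of the trajectory of `x`. -/
def terms (x : ℤ) (n : ℕ) : Finset ℤ := (Finset.range n).image fun k => C^[k] x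

theorem step (y : ℤ) : T 3 1 y = if y % 2 = 1 then C (C y) else C y := by
  rcases Int.emod_two_eq_zero_or_one y with h | h
  · have h1 : T 3 1 y = y / 2 := by unfold Pool.Agent.N903.SS.T; rw [if_pos h]
    have h2 : C y = y / 2 := by unfold C; rw [if_pos h]
    rw [if_neg (by omega), h1, h2]
  · have h1 : T 3 1 y = (3 * y + 1) / 2 := by unfold Pool.Agent.N903.SS.T; rw [if_neg (by omega)]
    have h2 : C y = 3 * y + 1 := by unfold C; rw [if_neg (by omega)]
    have h3 : C (3 * y + 1) = (3 * y + 1) / 2 := by unfold C; rw [if_pos (by omega)]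
    rw [if_pos h, h1, h2, h3]

theorem tr_eq (x : ℤ) (i : ℕ) : tr x i = C^[i + on x i] x := by
  induction i with
  | zero => simp [Pool.Agent.N903.SS.tr_zero, on]
  | succ i ih =>
    rw [Pool.Agent.N903.SS.tr_succ, Pool.Agent.N903.SS.on_succ, step]
    split_ifs with h
    · rw [show i + 1 + (on x i + 1) = (i + on x i) + 1 + 1 by ring, Function.iterate_succ_apply',
        Function.iterate_succ_apply', ← ih]
    · rw [show i + 1 + on x i = (i + on x i) + 1 by ring, Function.iterate_succ_apply', ← ih]

theorem on_le (x : ℤ) (i : ℕ) : on x i ≤ i := by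
  unfold Pool.Agent.N903.SS.on
  exact (Finset.card_filter_le _ _).trans (by rw [Finset.card_range])

theorem on_mono (x : ℤ) : StrictMono fun i => i + on x i := by
  apply strictMono_nat_of_lt_succ
  intro i
  have : on x i ≤ on x (i + 1) := by
    rw [Pool.Agent.N903.SS.on_succ]
    split_ifs <;> omega
  omega

/-- **Sums of dilates of trajectories of the 3x+1 map.** There is `N0` such that for all integers `x` and all
`n ≥ N0` with `2000 log (|x| + 1) ≤ n`: if the first `n` terms of the trajectory of `x` are distinct then for all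
odd integers `u`, `v` there are at least `n ^ 1.02` numbers `u y + v z`, where `y` and `z` are among these terms. -/
theorem result : ∃ N0 : ℕ, ∀ n ≥ N0, ∀ x : ℤ, 2000 * log (|(x : ℝ)| + 1) ≤ n →
    Set.InjOn (fun k => C^[k] x) (Set.Iio n) → ∀ u v : ℤ, u % 2 = 1 → v % 2 = 1 →
      (n : ℝ) ^ (1.02 : ℝ) ≤
        ((Finset.image₂ (fun y z => u * y + v * z) (terms x n) (terms x n)).card : ℝ) := by
  obtain ⟨N, hN⟩ := Pool.Agent.N903.SS.core
  have h1 : Filter.Tendsto (fun m : ℕ => (m : ℝ) ^ (0.0003 : ℝ)) Filter.atTop Filter.atTop :=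
    (tendsto_rpow_atTop (by norm_num)).comp tendsto_natCast_atTop_atTop
  obtain ⟨N1, hN1⟩ := Filter.eventually_atTop.1 (h1.eventually_ge_atTop ((5 : ℝ) ^ (1.0203 : ℝ)))
  refine ⟨max (5 * N + 20) N1, fun n hn x hx hinj u v hu hv => ?_⟩
  have hn1 : 5 * N + 20 ≤ n := (le_max_left _ _).trans hn
  have hn2 : N1 ≤ n := (le_max_right _ _).trans hn
  have hx0 : x ≠ 0 := by
    rintro rfl
    have h0 : C 0 = 0 := rfl
    have := hinj (show (0 : ℕ) ∈ Set.Iio n by simp; omega) (show (1 : ℕ) ∈ Set.Iio n by simp; omega)
      (by simp [h0])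
    omega
  set m := n / 4 with hm
  have h4 : 4 * m ≤ n := by omega
  have h5 : n ≤ 5 * m := by omega
  have hsub : ∀ i, i < 2 * m → i + on x i < n := by
    intro i hi
    have := on_le x i
    omega
  have hinj2 : Set.InjOn (tr x) (Set.Iio (2 * m)) := by
    intro i hi j hj h
    rw [tr_eq, tr_eq] at h
    have h6 := hinj (show i + on x i ∈ Set.Iio n from hsub i hi) (show j + on x j ∈ Set.Iio n from hsub j hj) h
    exact (on_mono x).injective h6
  have hlog : 400 * log |(x : ℝ)| ≤ m := by
    have hx1 : (0 : ℝ) < |(x : ℝ)| := by positivity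
    have h6 : log |(x : ℝ)| ≤ log (|(x : ℝ)| + 1) := Real.log_le_log hx1 (by linarith)
    have h7 : (n : ℝ) ≤ 5 * m := by exact_mod_cast h5
    linarith
  have hmain := hN m (by omega) x hx0 hlog hinj2 u v hu hv
  have hm0 : (0 : ℝ) < m := by
    have : 0 < m := by omega
    exact_mod_cast this
  have hn0 : (0 : ℝ) < n := by
    have : 0 < n := by omega
    exact_mod_cast this
  have h6 : (n : ℝ) ^ (1.02 : ℝ) ≤ (m : ℝ) ^ (1.0203 : ℝ) := by
    have h7 : (n : ℝ) / 5 ≤ m := by
      have : (n : ℝ) ≤ 5 * m := by exact_mod_cast h5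
      linarith
    have h8 : ((n : ℝ) / 5) ^ (1.0203 : ℝ) ≤ (m : ℝ) ^ (1.0203 : ℝ) :=
      Real.rpow_le_rpow (by positivity) h7 (by norm_num)
    refine le_trans ?_ h8
    rw [Real.div_rpow hn0.le (by norm_num), le_div_iff₀ (by positivity)]
    calc (n : ℝ) ^ (1.02 : ℝ) * 5 ^ (1.0203 : ℝ) ≤ (n : ℝ) ^ (1.02 : ℝ) * (n : ℝ) ^ (0.0003 : ℝ) :=
          mul_le_mul_of_nonneg_left (hN1 n hn2) (by positivity)
      _ = (n : ℝ) ^ (1.0203 : ℝ) := by rw [← Real.rpow_add hn0]; norm_num
  refine h6.trans (hmain.trans ?_)
  norm_cast
  apply Finset.card_le_card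
  have hZ : ZZ x (2 * m) ⊆ terms x n := by
    intro y hy
    unfold Pool.Agent.N903.SS.ZZ at hy
    rw [Finset.mem_image] at hy
    obtain ⟨i, hi, rfl⟩ := hy
    rw [Finset.mem_range] at hi
    unfold terms
    rw [Finset.mem_image]
    exact ⟨i + on x i, Finset.mem_range.2 (hsub i hi), (tr_eq x i).symm⟩
  exact Finset.image₂_subset hZ hZ

end Pool.Agent.Results.MP_d02c56_nt.SumsetsOfTrajectories
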