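import Pool.Agent.N905.EX.Three

set_option autoImplicit false

/-! The integers, of both signs, whose trajectory stays outside `[-y, y]`: a uniform power saving with the
explicit exponent `0.06`, larger than the entropy exponent `0.05004...`. -/

namespace Pool.Agent.Results.MP_d02c56_nt.TailExplicit

/-- the Collatz map on the integers -/
def C (x : ℤ) : ℤ := if x % 2 = 0 then x / 2 else 3 * x + 1

/-- the union of the five known cycles -/
def Known : Set ℤ := {1, 4, 2, -1, -2, -5, -14, -7, -20, -10, -17, -50, -25, -74, -37, -110, -55, -164,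
  -82, -41, -122, -61, -182, -91, -272, -136, -68, -34, 0}

/-- the number of integers `x` with `|x| ≤ X` and the property `P` -/
noncomputable def count (P : ℤ → Prop) (X : ℝ) : ℝ := ({x : ℤ | |(x : ℝ)| ≤ X ∧ P x}.ncard : ℝ)

/-- the terms of the orbit under `x ↦ x/2`, `(3x+1)/2` are terms of the trajectory -/
theorem iter_Td (k : ℕ) : ∀ x : ℤ, ∃ o : ℕ,
    (Pool.Agent.H499R2.ND.Td 1)^[k] x = C^[o] x := by
  induction k with
  | zero => intro x; exact ⟨0, rfl⟩
  | succ k ih =>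
    intro x
    by_cases h : x % 2 = 0
    · obtain ⟨o, ho⟩ := ih (x / 2)
      refine ⟨o + 1, ?_⟩
      have e1 : Pool.Agent.H499R2.ND.Td 1 x = x / 2 := by
        unfold Pool.Agent.H499R2.ND.Td; rw [if_pos h]
      have e2 : C x = x / 2 := by unfold C; rw [if_pos h]
      rw [Function.iterate_succ_apply, Function.iterate_succ_apply, e1, e2, ho]
    · obtain ⟨o, ho⟩ := ih ((3 * x + 1) / 2)
      refine ⟨o + 2, ?_⟩
      have e1 : Pool.Agent.H499R2.ND.Td 1 x = (3 * x + 1) / 2 := by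
        unfold Pool.Agent.H499R2.ND.Td; rw [if_neg h]
      have e2 : C x = 3 * x + 1 := by unfold C; rw [if_neg h]
      have e3 : C (3 * x + 1) = (3 * x + 1) / 2 := by unfold C; rw [if_pos (by omega)]
      rw [Function.iterate_succ_apply, Function.iterate_succ_apply, Function.iterate_succ_apply,
        e1, e2, e3, ho]

/-- There is `A` such that for all `X, y ≥ 1` at most `A X / y ^ 0.06` of the integers `x` with `|x| ≤ X`
have a trajectory all of whose terms exceed `y` in absolute value; hence, if the trajectories of all integers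
of `[-y, y]` reach the five known cycles, then so do those of all but at most `A X / y ^ 0.06` of the integers
of `[-X, X]`. -/
theorem result : ∃ A : ℝ, 0 < A ∧ ∀ X y : ℝ, 1 ≤ X → 1 ≤ y →
      count (fun x => ∀ k : ℕ, y < |((C^[k] x : ℤ) : ℝ)|) X ≤ A * X / y ^ (6 / 100 : ℝ) ∧
      ((∀ x : ℤ, |(x : ℝ)| ≤ y → ∃ k, C^[k] x ∈ Known) →
        count (fun x => ∀ k : ℕ, C^[k] x ∉ Known) X ≤ A * X / y ^ (6 / 100 : ℝ)) := by
  obtain ⟨A, hA, h⟩ := Pool.Agent.N905.EX.three_ex (k := 1) odd_one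
  refine ⟨A, hA, fun X y hX hy => ?_⟩
  have hfin : ∀ P : ℤ → Prop, {x : ℤ | |(x : ℝ)| ≤ X ∧ P x}.Finite := by
    intro P
    apply (Set.finite_Icc (-⌈X⌉) ⌈X⌉).subset
    rintro x ⟨hx, -⟩
    have h1 := abs_le.1 hx
    have h2 := Int.le_ceil X
    rw [Set.mem_Icc]
    constructor
    · have : (-(⌈X⌉ : ℤ) : ℝ) ≤ x := by linarith
      exact_mod_cast this
    · have : (x : ℝ) ≤ (⌈X⌉ : ℤ) := by linarith
      exact_mod_cast this
  have h1 : count (fun x => ∀ k : ℕ, y < |((C^[k] x : ℤ) : ℝ)|) X ≤ A * X / y ^ (6 / 100 : ℝ) := by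
    refine le_trans ?_ (h X y hX hy)
    unfold count
    have hsub : {x : ℤ | |(x : ℝ)| ≤ X ∧ ∀ k : ℕ, y < |((C^[k] x : ℤ) : ℝ)|} ⊆
        {x : ℤ | |(x : ℝ)| ≤ X ∧ ∀ n : ℕ, y < |(((Pool.Agent.H499R2.ND.Td 1)^[n] x : ℤ) : ℝ)|} := by
      rintro x ⟨hx1, hx2⟩
      refine ⟨hx1, fun k => ?_⟩
      obtain ⟨o, ho⟩ := iter_Td k x
      rw [ho]
      exact hx2 o
    exact_mod_cast Set.ncard_le_ncard hsub (hfin _)
  refine ⟨h1, fun hm => le_trans ?_ h1⟩
  unfold count
  have hsub : {x : ℤ | |(x : ℝ)| ≤ X ∧ ∀ k : ℕ, C^[k] x ∉ Known} ⊆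
      {x : ℤ | |(x : ℝ)| ≤ X ∧ ∀ k : ℕ, y < |((C^[k] x : ℤ) : ℝ)|} := by
    rintro x ⟨h1, h3⟩
    refine ⟨h1, fun k => ?_⟩
    by_contra hcon
    push Not at hcon
    obtain ⟨j, hj⟩ := hm (C^[k] x) hcon
    rw [← Function.iterate_add_apply] at hj
    exact h3 _ hj
  exact_mod_cast Set.ncard_le_ncard hsub (hfin _)

end Pool.Agent.Results.MP_d02c56_nt.TailExplicit
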